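import Pool.Agent.H741.EL.Stm
import Pool.Graph.R_seed8.W291.RP.U2

/-!
# Brunn-Minkowski with a disc (package BM of project EL)
-/

set_option autoImplicit false
open MeasureTheory Metric Set Filter Topology

namespace Pool.Agent.H8.EL
open Pool.Agent.Y508 Pool.Agent.H741.EL

theorem vol_ball (c : E2) (s : ℝ) (hs : 0 < s) :
    (volume (closedBall c s)).toReal = Real.pi * s ^ 2 := by
  rw [EuclideanSpace.volume_closedBall_fin_two, ENNReal.toReal_mul, ENNReal.toReal_pow,
    ENNReal.toReal_ofReal hs.le]
  rw [mul_comm]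
  congr 1
  exact ENNReal.toReal_ofReal Real.pi_pos.le

theorem t_BM : S_BM := by
  intro K D v c s t hK hD hDfin hs ht ht1 h
  have hKm : MeasurableSet K := hK.cpt.isClosed.measurableSet
  have hKfin : volume K ≠ ⊤ := hK.cpt.measure_lt_top.ne
  have hKpos : 0 < (volume K).toReal :=
    ENNReal.toReal_pos (lt_of_lt_of_le (isOpen_interior.measure_pos volume hK.int)
      (measure_mono interior_subset)).ne' hKfin
  have hAvol : volume ((fun x : E2 => x + v) ⁻¹' K) = volume K := measure_preimage_add_right _ _ _
  have hAm : MeasurableSet ((fun x : E2 => x + v) ⁻¹' K) := (measurable_add_const v) hKm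
  have hb : (volume (closedBall c s)).toReal = Real.pi * s ^ 2 := vol_ball c s hs
  have key := Pool.Agent.W291.RP.bm_conv (k := 2) (by norm_num) ht ht1 hAm
    (isClosed_closedBall (x := c) (ε := s)).measurableSet hD (by rw [hAvol]; exact hKpos)
    (by rw [hb]; positivity) hDfin (fun x hx y hy => by
      have h1 := h (x + v) hx y hy
      rwa [add_sub_cancel_right] at h1)
  rw [hAvol, hb] at key
  have e : ∀ x : ℝ, x ^ (((2 : ℕ) : ℝ)⁻¹) = Real.sqrt x := fun x => by
    rw [Real.sqrt_eq_rpow]
    norm_num
  rw [e, e, e] at key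
  exact key

end Pool.Agent.H8.EL
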